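import Pool.Agent.Lib.MP_fe4d92_an.Geometry
import Pool.Agent.Lib.MP_fe4d92_an.Fail

/-!
A compact subset of `ℝ³` for which the capacity condition (3) holds and the approximation
property (1) fails, for the Laplacian, `s = 0` and the space of locally `q`-integrable functions,
for every `q > 3`.
-/

namespace Pool.Agent.Results.MP_fe4d92_an.LqCounterexample

open MeasureTheory Set Metric
open scoped ENNReal
open Pool.Agent.Lib.MP_fe4d92_an

/-- There is a compact set `K ⊂ ℝ³` such that for every real `q > 3` the capacity condition (3)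
holds for `K` and the approximation property (1) fails for `K` (Laplacian, `s = 0`, locally
`q`-integrable functions).  The capacities whose quotients occur in (3) are positive and finite. -/
theorem result : ∃ K : Set E, IsCompact K ∧ ∀ q : ℝ, 3 < q →
    (∀ x ∈ frontier K, ∀ δ : ℝ, 0 < δ →
      0 < cap (ENNReal.ofReal q) (ball x δ \ K) ∧
      capTilde (ENNReal.ofReal q) (ball x δ \ interior K) < ⊤) ∧
    CapacityCondition (ENNReal.ofReal q) K ∧
    ¬ Approximable (ENNReal.ofReal q) K := by
  refine ⟨KK, isCompact_KK, fun q hq => ⟨fun x hx δ hδ => ⟨?_, ?_⟩, capacityCondition hq,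
    not_approximable hq⟩⟩
  · obtain ⟨κ, hκ, hlow⟩ := cap_segment hq
    obtain ⟨a, ha⟩ := exists_seg hx hδ
    refine lt_of_lt_of_le (ENNReal.ofReal_pos.mpr ?_) (hlow a (δ / 4) (by positivity) _ ha)
    positivity
  · obtain ⟨C, _, hup⟩ := capTilde_le hq
    exact lt_of_le_of_lt (hup x δ hδ _ sdiff_subset) ENNReal.ofReal_lt_top

end Pool.Agent.Results.MP_fe4d92_an.LqCounterexample
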